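import Pool.Agent.Helper99.SI.StT

/-!
# Module E2 of project SI (MP_181f94_al), for helper99
-/

set_option autoImplicit false

namespace Pool.Agent.Helper51.SI

open Pool.Agent.Helper99.SI
open Pool.Agent.Helper92 Pool.Agent.Helper92.LV

/-! ### eventually periodic vectors -/

section EP

variable {L : Type} [AddCommGroup L] [Module ℂ L] (F : L →ₗ[ℂ] L)

lemma ep_ext {k m : ℕ} {y : L} (h : (F ^ (k + m)) y = (F ^ k) y) (i j : ℕ) :
    (F ^ (k + i + j * m)) y = (F ^ (k + i)) y := by
  induction j with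
  | zero => rw [zero_mul, add_zero]
  | succ j ih =>
    have e1 : k + i + (j + 1) * m = (i + j * m) + (k + m) := by ring
    have e2 : k + i + j * m = (i + j * m) + k := by ring
    rw [e1, pow_add, Module.End.mul_apply, h, ← Module.End.mul_apply, ← pow_add, ← e2, ih]

/-- eventually periodic vectors -/
def EPs : Submodule ℂ L where
  carrier := {y | ∃ k m : ℕ, 1 ≤ m ∧ (F ^ (k + m)) y = (F ^ k) y}
  zero_mem' := ⟨0, 1, le_rfl, by simp⟩
  add_mem' := by
    rintro y z ⟨k1, m1, h1, h2⟩ ⟨k2, m2, h3, h4⟩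
    refine ⟨k1 + k2, m1 * m2, Nat.mul_pos h1 h3, ?_⟩
    have e1 := ep_ext F h2 k2 m2
    have e2 := ep_ext F h4 k1 m1
    rw [map_add, map_add]
    congr 1
    · rw [mul_comm m1 m2]; exact e1
    · rw [add_comm k1 k2]; exact e2
  smul_mem' := by
    rintro c y ⟨k, m, h1, h2⟩
    exact ⟨k, m, h1, by rw [map_smul, map_smul, h2]⟩

lemma mem_ep {y : L} : y ∈ EPs F ↔ ∃ k m : ℕ, 1 ≤ m ∧ (F ^ (k + m)) y = (F ^ k) y := Iff.rfl

lemma ep_of_image {y : L} (h : F y ∈ EPs F) : y ∈ EPs F := by
  obtain ⟨k, m, h1, h2⟩ := h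
  refine ⟨k + 1, m, h1, ?_⟩
  have e1 : k + 1 + m = (k + m) + 1 := by ring
  rw [e1, pow_succ, pow_succ, Module.End.mul_apply, Module.End.mul_apply, h2]

lemma pow_lift {k : ℕ} {u w : L} (h : (F ^ k) u = (F ^ k) w) (m : ℕ) :
    (F ^ (m + k)) u = (F ^ (m + k)) w := by
  rw [pow_add, Module.End.mul_apply, Module.End.mul_apply, h]

end EP

section

variable {n : ℕ} {V E : Type} [Fintype V] [Fintype E] [DecidableEq V] [DecidableEq E]
    {G : LV.Graph V E} {L : Type} [Ring L] [Algebra ℂ L] [StarRing L]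
    (T : Two n G L)

lemma v_e (a : V) (x : E) : T.f.v a * T.f.e x = if a = G.s x then T.f.e x else 0 := by
  have h1 := T.f.se x
  have h2 := T.f.vv a (G.s x)
  by_cases h : a = G.s x
  · rw [if_pos h, h, h1]
  · rw [if_neg h] at h2 ⊢
    rw [← h1, ← mul_assoc, h2, zero_mul]

lemma e_v (x : E) (b : V) : T.f.e x * T.f.v b = if G.r x = b then T.f.e x else 0 := by
  have h1 := T.f.er x
  have h2 := T.f.vv (G.r x) b
  by_cases h : G.r x = b
  · rw [if_pos h, ← h, h1]
  · rw [if_neg h] at h2 ⊢
    rw [← h1, mul_assoc, h2, mul_zero]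

lemma s_e (x y : E) : star (T.f.e x) * T.f.e y = if x = y then T.f.v (G.r x) else 0 := by
  rw [← T.fg, T.f.ck1]

lemma phi_apply (y : L) : T.PhiG y = ∑ x, star (T.f.e x) * (y * T.f.e x) := by
  simp only [Two.PhiG, LinearMap.sum_apply, LinearMap.comp_apply, LinearMap.mulLeft_apply,
    LinearMap.mulRight_apply]

lemma phi_star (y : L) : T.PhiG (star y) = star (T.PhiG y) := by
  rw [phi_apply, phi_apply, star_sum]
  refine Finset.sum_congr rfl fun x _ => ?_
  rw [star_mul, star_mul, star_star, mul_assoc]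

lemma phi_pow_star (k : ℕ) (y : L) : (T.PhiG ^ k) (star y) = star ((T.PhiG ^ k) y) := by
  induction k generalizing y with
  | zero => simp
  | succ k ih => rw [pow_succ, Module.End.mul_apply, Module.End.mul_apply, phi_star, ih]

lemma ep_star {y : L} (h : y ∈ EPs T.PhiG) : star y ∈ EPs T.PhiG := by
  obtain ⟨k, m, h1, h2⟩ := h
  exact ⟨k, m, h1, by rw [phi_pow_star, phi_pow_star, h2]⟩

/-- the product of a list of edges -/
def we (l : List E) : L := (l.map T.f.e).prod

lemma we_nil : we T [] = 1 := rfl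

lemma we_cons (x : E) (l : List E) : we T (x :: l) = T.f.e x * we T l := by
  simp [we]

lemma we_concat (x : E) (l : List E) : we T (l ++ [x]) = we T l * T.f.e x := by
  simp [we]

/-- monomials -/
def mon (l l' : List E) (a b : V) : L := T.f.v a * (we T l * star (we T l')) * T.f.v b

lemma phi_cons (y z : E) (l l' : List E) (a b : V) :
    T.PhiG (mon T (y :: l) (z :: l') a b) =
      if y = z ∧ a = G.s y ∧ b = G.s y then mon T l l' (G.r y) (G.r y) else 0 := by
  rw [phi_apply]
  have h1 : ∀ x, star (T.f.e x) * (T.f.v a * T.f.e y) =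
      if x = y ∧ a = G.s y then T.f.v (G.r y) else 0 := by
    intro x
    rw [v_e]
    by_cases h : a = G.s y
    · rw [if_pos h, s_e]
      by_cases h' : x = y
      · rw [if_pos h', if_pos ⟨h', h⟩, h']
      · rw [if_neg h', if_neg (fun h'' => h' h''.1)]
    · rw [if_neg h, mul_zero, if_neg (fun h'' => h h''.2)]
  have h2 : ∀ x, star (T.f.e z) * (T.f.v b * T.f.e x) =
      if z = x ∧ b = G.s x then T.f.v (G.r z) else 0 := by
    intro x
    rw [v_e]
    by_cases h : b = G.s x
    · rw [if_pos h, s_e]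
      by_cases h' : z = x
      · rw [if_pos h', if_pos ⟨h', h⟩]
      · rw [if_neg h', if_neg (fun h'' => h' h''.1)]
    · rw [if_neg h, mul_zero, if_neg (fun h'' => h h''.2)]
  have term : ∀ x, star (T.f.e x) * (mon T (y :: l) (z :: l') a b * T.f.e x) =
      (star (T.f.e x) * (T.f.v a * T.f.e y)) * (we T l * star (we T l')) *
        (star (T.f.e z) * (T.f.v b * T.f.e x)) := by
    intro x
    rw [mon, we_cons, we_cons, star_mul]
    simp only [mul_assoc]
  rw [Finset.sum_congr rfl fun x _ => term x, Finset.sum_eq_single y]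
  · rw [h1, h2]
    by_cases hy : y = z
    · subst hy
      by_cases ha : a = G.s y
      · by_cases hb : b = G.s y
        · simp [ha, hb, mon]
        · simp [hb]
      · simp [ha]
    · have hy' : ¬ z = y := fun h => hy h.symm
      simp [hy, hy']
  · intro x _ hx
    rw [h1, if_neg (fun h => hx h.1), zero_mul, zero_mul]
  · intro h
    exact absurd (Finset.mem_univ y) h

lemma phi_nil (y : E) (l : List E) (a b : V) :
    T.PhiG (mon T (y :: l) [] a b) =
      if a = G.s y ∧ b = G.s y then T.f.v (G.r y) * we T (l ++ [y]) else 0 := by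
  rw [phi_apply]
  have term : ∀ x, star (T.f.e x) * (mon T (y :: l) [] a b * T.f.e x) =
      (star (T.f.e x) * (T.f.v a * T.f.e y)) * we T l * (T.f.v b * T.f.e x) := by
    intro x
    rw [mon, we_cons, we_nil, star_one, mul_one]
    simp only [mul_assoc]
  rw [Finset.sum_congr rfl fun x _ => term x, Finset.sum_eq_single y]
  · rw [v_e, v_e, we_concat]
    by_cases ha : a = G.s y
    · by_cases hb : b = G.s y
      · rw [if_pos ha, if_pos hb, if_pos ⟨ha, hb⟩, s_e, if_pos rfl, mul_assoc]
      · simp [hb]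
    · simp [ha]
  · intro x _ hx
    rw [v_e T a y]
    by_cases ha : a = G.s y
    · rw [if_pos ha, s_e, if_neg hx, zero_mul, zero_mul]
    · rw [if_neg ha, mul_zero, zero_mul, zero_mul]
  · intro h
    exact absurd (Finset.mem_univ y) h

/-- `u` is the closed path with the list `ℓ` (or zero) -/
def IsM (ℓ : List E) (u : L) : Prop :=
  ∃ l y, ℓ = l ++ [y] ∧ u = T.f.v (G.r y) * we T (l ++ [y])

lemma isM_step {ℓ : List E} {u : L} (h : IsM T ℓ u) :
    T.PhiG u = 0 ∨ IsM T (ℓ.rotate 1) (T.PhiG u) := by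
  obtain ⟨l, y, h1, h2⟩ := h
  cases ℓ with
  | nil => exact absurd h1.symm (by simp)
  | cons z m =>
    have h3 : u = mon T (z :: m) [] (G.r y) (G.r y) := by
      rw [h2, mon, we_nil, star_one, mul_one, h1, we_concat]
      rw [mul_assoc, mul_assoc, e_v, if_pos rfl]
    rw [h3, phi_nil]
    by_cases hc : G.r y = G.s z ∧ G.r y = G.s z
    · right
      rw [if_pos hc]
      refine ⟨m, z, ?_, rfl⟩
      rw [List.rotate_cons_succ, List.rotate_zero]
    · left
      rw [if_neg hc]

lemma isM_pow {ℓ : List E} {u : L} (h : IsM T ℓ u) (k : ℕ) :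
    (T.PhiG ^ k) u = 0 ∨ IsM T (ℓ.rotate k) ((T.PhiG ^ k) u) := by
  induction k with
  | zero =>
    right
    rw [List.rotate_zero, pow_zero]
    exact h
  | succ k ih =>
    rw [pow_succ', Module.End.mul_apply]
    rcases ih with h1 | h1
    · left; rw [h1, map_zero]
    · rcases isM_step T h1 with h2 | h2
      · left; exact h2
      · right
        rw [List.rotate_rotate] at h2
        exact h2

lemma isM_unique {ℓ : List E} {u u' : L} (h : IsM T ℓ u) (h' : IsM T ℓ u') : u = u' := by
  obtain ⟨l, y, h1, h2⟩ := h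
  obtain ⟨l', y', h1', h2'⟩ := h'
  rw [h1] at h1'
  have h3 := List.append_inj' h1' rfl
  have h4 : y = y' := by simpa using h3.2
  rw [h2, h2', h3.1, h4]

lemma isM_ep {ℓ : List E} {u : L} (h : IsM T ℓ u) : u ∈ EPs T.PhiG := by
  have hl : 1 ≤ ℓ.length := by
    obtain ⟨l, y, h1, _⟩ := h
    rw [h1]; simp
  rcases isM_pow T h ℓ.length with h1 | h1
  · refine ⟨ℓ.length, ℓ.length, hl, ?_⟩
    rw [pow_add, Module.End.mul_apply, h1, map_zero]
  · refine ⟨0, ℓ.length, hl, ?_⟩
    rw [List.rotate_length] at h1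
    rw [zero_add, pow_zero, Module.End.one_apply]
    exact isM_unique T h1 h

lemma mon_nil_ep (y : E) (l : List E) (a b : V) : mon T (y :: l) [] a b ∈ EPs T.PhiG := by
  apply ep_of_image
  rw [phi_nil]
  split_ifs
  · exact isM_ep T ⟨l, y, rfl, rfl⟩
  · exact Submodule.zero_mem _

lemma mon_star (l l' : List E) (a b : V) : star (mon T l l' a b) = mon T l' l b a := by
  rw [mon, mon, star_mul, star_mul, star_mul, star_star, T.fv, T.fv]
  simp only [mul_assoc]

/-- linear combinations of the vertices -/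
noncomputable def vv : (V → ℂ) →ₗ[ℂ] L := Fintype.linearCombination ℂ T.f.v

lemma vv_apply (c : V → ℂ) : vv T c = ∑ a, c a • T.f.v a := by
  rw [vv, Fintype.linearCombination_apply]

lemma vv_single (a : V) : vv T (Pi.single a 1) = T.f.v a := by
  rw [vv, Fintype.linearCombination_apply_single, one_smul]

lemma phi_v (a : V) : T.PhiG (T.f.v a) = ∑ b, (adjm G a b : ℂ) • T.f.v b := by
  rw [phi_apply]
  have h1 : ∀ x, star (T.f.e x) * (T.f.v a * T.f.e x) =
      if G.s x = a then T.f.v (G.r x) else 0 := by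
    intro x
    rw [v_e]
    by_cases h : a = G.s x
    · rw [if_pos h, if_pos h.symm, s_e, if_pos rfl]
    · rw [if_neg h, if_neg (Ne.symm h), mul_zero]
  rw [Finset.sum_congr rfl fun x _ => h1 x, ← Finset.sum_filter]
  have h2 : ∀ b, (adjm G a b : ℂ) • T.f.v b =
      ∑ x ∈ (Finset.univ.filter fun x => G.s x = a).filter fun x => G.r x = b,
        T.f.v (G.r x) := by
    intro b
    rw [Finset.sum_congr rfl (g := fun _ => T.f.v b), Finset.sum_const, adjm,
      Finset.filter_filter]
    · push_cast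
      rw [Nat.cast_smul_eq_nsmul]
    · intro x hx
      rw [(Finset.mem_filter.1 hx).2]
  rw [Finset.sum_congr rfl fun b _ => h2 b, Finset.sum_fiberwise]

/-- the adjacency matrix over the complex numbers -/
noncomputable def AC (G : LV.Graph V E) : Matrix V V ℂ := (adjm G).map (fun r : ℝ => (r : ℂ))

lemma phi_vv (c : V → ℂ) : T.PhiG (vv T c) = vv T (Matrix.vecMul c (AC G)) := by
  rw [vv_apply, vv_apply, map_sum]
  simp only [map_smul, phi_v, Finset.smul_sum, smul_smul]
  rw [Finset.sum_comm]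
  refine Finset.sum_congr rfl fun b _ => ?_
  rw [← Finset.sum_smul]
  rfl

lemma phi_pow_vv (k : ℕ) (c : V → ℂ) :
    (T.PhiG ^ k) (vv T c) = vv T (Matrix.vecMul c (AC G ^ k)) := by
  induction k with
  | zero => simp
  | succ k ih =>
    rw [pow_succ', Module.End.mul_apply, ih, phi_vv, Matrix.vecMul_vecMul, pow_succ]

lemma vv_inj : Function.Injective (vv T) := by
  have h1 : LinearIndependent ℂ T.f.v := by
    have h2 := T.find.comp (fun a => Pa.triv G a) (by
      intro a b h
      have := congrArg Pa.src h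
      exact this)
    exact h2
  exact linearIndependent_iff_injective_fintypeLinearCombination.1 h1

lemma range_stable {y : L} (h : y ∈ LinearMap.range (vv T)) (k : ℕ) :
    (T.PhiG ^ k) y ∈ LinearMap.range (vv T) := by
  obtain ⟨c, rfl⟩ := h
  exact ⟨_, (phi_pow_vv T k c).symm⟩

lemma main_mon (l : List E) : ∀ (l' : List E) (a b : V),
    (l.length = l'.length → ∃ k : ℕ, (T.PhiG ^ k) (mon T l l' a b) ∈ LinearMap.range (vv T)) ∧
    (l.length ≠ l'.length → mon T l l' a b ∈ EPs T.PhiG) := by
  induction l with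
  | nil =>
    intro l' a b
    cases l' with
    | nil =>
      refine ⟨fun _ => ⟨0, ?_⟩, fun h => absurd rfl h⟩
      rw [pow_zero, Module.End.one_apply, mon, we_nil, star_one, mul_one, mul_one, T.f.vv]
      split_ifs
      · exact ⟨_, vv_single T a⟩
      · exact Submodule.zero_mem _
    | cons z m =>
      refine ⟨fun h => absurd h (by simp), fun _ => ?_⟩
      rw [← mon_star]
      exact ep_star T (mon_nil_ep T z m b a)
  | cons y m ih =>
    intro l' a b
    cases l' with
    | nil => exact ⟨fun h => absurd h (by simp), fun _ => mon_nil_ep T y m a b⟩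
    | cons z m' =>
      constructor
      · intro h
        have h1 : m.length = m'.length := by simpa using h
        by_cases hc : y = z ∧ a = G.s y ∧ b = G.s y
        · obtain ⟨k, hk⟩ := (ih m' (G.r y) (G.r y)).1 h1
          refine ⟨k + 1, ?_⟩
          rw [pow_succ, Module.End.mul_apply, phi_cons, if_pos hc]
          exact hk
        · refine ⟨1, ?_⟩
          rw [pow_one, phi_cons, if_neg hc]
          exact Submodule.zero_mem _
      · intro h
        have h1 : m.length ≠ m'.length := by simpa using h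
        apply ep_of_image
        rw [phi_cons]
        split_ifs
        · exact (ih m' (G.r y) (G.r y)).2 h1
        · exact Submodule.zero_mem _

/-! ### degrees -/

/-- homogeneous elements -/
def Hm (d : ℤ) (y : L) : Prop := T.b.p d y = y

lemma Hm.mul {i j : ℤ} {y z : L} (hy : Hm T i y) (hz : Hm T j z) : Hm T (i + j) (y * z) := by
  have h := T.b.mul i j y z
  have hy' : T.b.p i y = y := hy
  have hz' : T.b.p j z = z := hz
  rw [hy', hz'] at h
  exact h

lemma Hm.star {i : ℤ} {y : L} (hy : Hm T i y) : Hm T (-i) (star y) := by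
  have h := T.b.st i y
  have hy' : T.b.p i y = y := hy
  rw [hy'] at h
  exact h

lemma Hm.pp {i : ℤ} {y : L} (hy : Hm T i y) (j : ℤ) : T.b.p j y = if j = i then y else 0 := by
  have h := T.b.pp j i y
  have hy' : T.b.p i y = y := hy
  rw [hy'] at h
  exact h

lemma hm_we (l : List E) : Hm T l.length (we T l) := by
  induction l with
  | nil => exact T.b.one
  | cons x l ih =>
    rw [we_cons]
    have h := Hm.mul T (T.be x : Hm T 1 (T.f.e x)) ih
    have e : (1 : ℤ) + l.length = ((x :: l).length : ℤ) := by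
      rw [List.length_cons]; push_cast; ring
    rw [e] at h
    exact h

lemma hm_mm (l l' : List E) :
    Hm T ((l.length : ℤ) - l'.length) (we T l * star (we T l')) := by
  have h := Hm.mul T (hm_we T l) (Hm.star T (hm_we T l'))
  exact h

lemma hm_mon (l l' : List E) (a b : V) : Hm T ((l.length : ℤ) - l'.length) (mon T l l' a b) := by
  have h := Hm.mul T (Hm.mul T (T.bv a : Hm T 0 (T.f.v a)) (hm_mm T l l'))
    (T.bv b : Hm T 0 (T.f.v b))
  rw [zero_add, add_zero] at h
  exact h

lemma hm_phi {d : ℤ} {y : L} (hy : Hm T d y) : Hm T d (T.PhiG y) := by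
  have h1 : ∀ x, Hm T d (star (T.f.e x) * (y * T.f.e x)) := by
    intro x
    have h := Hm.mul T (Hm.star T (T.be x : Hm T 1 (T.f.e x)))
      (Hm.mul T hy (T.be x : Hm T 1 (T.f.e x)))
    have e : (-1 : ℤ) + (d + 1) = d := by ring
    rw [e] at h
    exact h
  change T.b.p d (T.PhiG y) = T.PhiG y
  rw [phi_apply, map_sum]
  exact Finset.sum_congr rfl fun x _ => h1 x

/-! ### spanning -/

lemma span_top (hG : ∀ a : V, ∃ x : E, G.s x = a) (y : L) : y ∈ Submodule.span ℂ
    (Set.range fun q : List E × List E => we T q.1 * star (we T q.2)) := by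
  set S := Submodule.span ℂ
    (Set.range fun q : List E × List E => we T q.1 * star (we T q.2)) with hS
  have hm : ∀ l l', we T l * star (we T l') ∈ S := fun l l' =>
    Submodule.subset_span ⟨(l, l'), rfl⟩
  have hlin : ∀ z : L, (∀ l l', z * (we T l * star (we T l')) ∈ S) → ∀ s ∈ S, z * s ∈ S := by
    intro z hz s hs
    induction hs using Submodule.span_induction with
    | mem s hs =>
      obtain ⟨q, rfl⟩ := hs
      exact hz q.1 q.2
    | zero => rw [mul_zero]; exact Submodule.zero_mem _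
    | add s t _ _ h1 h2 => rw [mul_add]; exact Submodule.add_mem _ h1 h2
    | smul c s _ h1 => rw [mul_smul_comm]; exact Submodule.smul_mem _ _ h1
  have hv : ∀ a, ∀ s ∈ S, T.f.v a * s ∈ S := by
    intro a
    apply hlin
    intro l l'
    cases l with
    | nil =>
      rw [T.f.ck2 a (hG a), we_nil, one_mul, Finset.sum_mul]
      refine Submodule.sum_mem _ fun x _ => ?_
      have h : T.f.e x * T.f.g x * star (we T l') = we T [x] * star (we T (l' ++ [x])) := by
        rw [T.fg, we_concat, star_mul, we_cons, we_nil, mul_one, mul_assoc]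
      rw [h]
      exact hm _ _
    | cons y m =>
      rw [we_cons, ← mul_assoc, ← mul_assoc, v_e]
      split_ifs
      · have h := hm (y :: m) l'
        rwa [we_cons] at h
      · rw [zero_mul, zero_mul]; exact Submodule.zero_mem _
  have he : ∀ x, ∀ s ∈ S, T.f.e x * s ∈ S := by
    intro x
    apply hlin
    intro l l'
    have h := hm (x :: l) l'
    rwa [we_cons, mul_assoc] at h
  have hg : ∀ x, ∀ s ∈ S, T.f.g x * s ∈ S := by
    intro x
    apply hlin
    intro l l'
    cases l with
    | nil =>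
      have h := hm [] (l' ++ [x])
      rw [we_concat, star_mul, we_nil, one_mul] at h
      rwa [we_nil, one_mul, T.fg]
    | cons y m =>
      rw [we_cons, ← mul_assoc, ← mul_assoc, T.f.ck1]
      split_ifs
      · rw [mul_assoc]
        exact hv _ _ (hm _ _)
      · rw [zero_mul, zero_mul]; exact Submodule.zero_mem _
  have hall : ∀ z : L, ∀ s ∈ S, z * s ∈ S := by
    intro z
    have hz : z ∈ Algebra.adjoin ℂ (Set.range T.f.v ∪ Set.range T.f.e ∪ Set.range T.f.g) := by
      have h := T.fgen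
      unfold Fam.Gens at h
      rw [h]
      trivial
    induction hz using Algebra.adjoin_induction with
    | mem z hz =>
      rcases hz with (⟨a, rfl⟩ | ⟨a, rfl⟩) | ⟨a, rfl⟩
      · exact hv a
      · exact he a
      · exact hg a
    | algebraMap c =>
      intro s hs
      rw [← Algebra.smul_def]
      exact Submodule.smul_mem _ _ hs
    | add z w _ _ h1 h2 =>
      intro s hs
      rw [add_mul]
      exact Submodule.add_mem _ (h1 s hs) (h2 s hs)
    | mul z w _ _ h1 h2 =>
      intro s hs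
      rw [mul_assoc]
      exact h1 _ (h2 s hs)
  have h1 : (1 : L) ∈ S := by
    have h := hm [] []
    rwa [we_nil, star_one, mul_one] at h
  have h2 := hall y 1 h1
  rwa [mul_one] at h2

lemma mm_sum (l l' : List E) :
    we T l * star (we T l') = ∑ a, ∑ b, mon T l l' a b := by
  simp only [mon]
  simp only [← Finset.mul_sum, T.f.one, mul_one, ← Finset.sum_mul, one_mul]

lemma main_mm (l l' : List E) :
    (∃ k : ℕ, (T.PhiG ^ k) (T.b.p 0 (we T l * star (we T l'))) ∈ LinearMap.range (vv T)) ∧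
    we T l * star (we T l') - T.b.p 0 (we T l * star (we T l')) ∈ EPs T.PhiG := by
  rw [(hm_mm T l l').pp]
  by_cases h : l.length = l'.length
  · have h0 : (0 : ℤ) = (l.length : ℤ) - l'.length := by rw [h]; ring
    rw [if_pos h0]
    refine ⟨?_, by rw [sub_self]; exact Submodule.zero_mem _⟩
    choose k hk using fun a b => (main_mon T l l' a b).1 h
    refine ⟨∑ a, ∑ b, k a b, ?_⟩
    rw [mm_sum, map_sum]
    refine Submodule.sum_mem _ fun a _ => ?_
    rw [map_sum]
    refine Submodule.sum_mem _ fun b _ => ?_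
    have h1 : k a b ≤ ∑ a, ∑ b, k a b :=
      (Finset.single_le_sum (f := fun b => k a b) (fun _ _ => Nat.zero_le _)
        (Finset.mem_univ b)).trans
        (Finset.single_le_sum (f := fun a => ∑ b, k a b) (fun _ _ => Nat.zero_le _)
          (Finset.mem_univ a))
    obtain ⟨m, hm⟩ := Nat.exists_eq_add_of_le' h1
    rw [hm, pow_add, Module.End.mul_apply]
    exact range_stable T (hk a b) m
  · have h0 : ¬ (0 : ℤ) = (l.length : ℤ) - l'.length := by omega
    rw [if_neg h0, sub_zero]
    refine ⟨⟨0, by rw [map_zero]; exact Submodule.zero_mem _⟩, ?_⟩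
    rw [mm_sum]
    exact Submodule.sum_mem _ fun a _ => Submodule.sum_mem _ fun b _ => (main_mon T l l' a b).2 h

lemma main_all (hG : ∀ a : V, ∃ x : E, G.s x = a) (y : L) :
    (∃ k : ℕ, (T.PhiG ^ k) (T.b.p 0 y) ∈ LinearMap.range (vv T)) ∧
    y - T.b.p 0 y ∈ EPs T.PhiG ∧ T.b.p 0 (T.PhiG y) = T.PhiG (T.b.p 0 y) := by
  have hy := span_top T hG y
  induction hy using Submodule.span_induction with
  | mem s hs =>
    obtain ⟨q, rfl⟩ := hs
    refine ⟨(main_mm T q.1 q.2).1, (main_mm T q.1 q.2).2, ?_⟩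
    simp only
    rw [(hm_mm T q.1 q.2).pp, (hm_phi T (hm_mm T q.1 q.2)).pp]
    split_ifs
    · rfl
    · rw [map_zero]
  | zero =>
    refine ⟨⟨0, by simp⟩, by simp, by simp⟩
  | add s t _ _ h1 h2 =>
    obtain ⟨⟨k1, hk1⟩, h12, h13⟩ := h1
    obtain ⟨⟨k2, hk2⟩, h22, h23⟩ := h2
    refine ⟨⟨k1 + k2, ?_⟩, ?_, ?_⟩
    · rw [map_add, map_add]
      refine Submodule.add_mem _ ?_ ?_
      · rw [add_comm, pow_add, Module.End.mul_apply]
        exact range_stable T hk1 k2
      · rw [pow_add, Module.End.mul_apply]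
        exact range_stable T hk2 k1
    · have e : s + t - T.b.p 0 (s + t) = (s - T.b.p 0 s) + (t - T.b.p 0 t) := by
        rw [map_add]; abel
      rw [e]
      exact Submodule.add_mem _ h12 h22
    · rw [map_add, map_add, map_add, map_add, h13, h23]
  | smul c s _ h1 =>
    obtain ⟨⟨k1, hk1⟩, h12, h13⟩ := h1
    refine ⟨⟨k1, ?_⟩, ?_, ?_⟩
    · rw [map_smul, map_smul]; exact Submodule.smul_mem _ _ hk1
    · rw [map_smul, ← smul_sub]; exact Submodule.smul_mem _ _ h12
    · rw [map_smul, map_smul, map_smul, map_smul, h13]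

end

theorem hE2 (h1 : StA0) (h2 : StT4) : StE2 := by
  intro n V E _ _ _ _ G L _ _ _ _ T hG hdet
  have hdetC : IsUnit (AC G).det := by
    rw [isUnit_iff_ne_zero]
    have e : (AC G).det = (((adjm G).det : ℝ) : ℂ) := by
      have := (Complex.ofRealHom.map_det (adjm G)).symm
      exact this
    rw [e]
    exact_mod_cast hdet
  have hpow : ∀ k : ℕ, IsUnit (AC G ^ k).det := fun k => by
    rw [Matrix.det_pow]; exact hdetC.pow k
  have uniq0 : ∀ (c : V → ℂ) (k : ℕ), (T.PhiG ^ k) (vv T c) = 0 → c = 0 := by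
    intro c k h
    rw [phi_pow_vv] at h
    have h3 : Matrix.vecMul c (AC G ^ k) = 0 := vv_inj T (by rw [h, map_zero])
    have h4 := congrArg (fun d => Matrix.vecMul d (AC G ^ k)⁻¹) h3
    simp only [Matrix.vecMul_vecMul, Matrix.zero_vecMul] at h4
    rw [Matrix.mul_nonsing_inv _ (hpow k), Matrix.vecMul_one] at h4
    exact h4
  have uniq : ∀ (y : L) (c c' : V → ℂ), (∃ k : ℕ, (T.PhiG ^ k) y = (T.PhiG ^ k) (vv T c)) →
      (∃ k : ℕ, (T.PhiG ^ k) y = (T.PhiG ^ k) (vv T c')) → c = c' := by
    rintro y c c' ⟨k, hk⟩ ⟨k', hk'⟩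
    have e1 := pow_lift T.PhiG hk k'
    have e2 := pow_lift T.PhiG hk' k
    rw [add_comm k k'] at e2
    have e3 : (T.PhiG ^ (k' + k)) (vv T (c - c')) = 0 := by
      rw [map_sub, map_sub, ← e1, ← e2, sub_self]
    exact sub_eq_zero.1 (uniq0 _ _ e3)
  have ex : ∀ y : L, ∃ c : V → ℂ, ∃ k : ℕ,
      (T.PhiG ^ k) (T.b.p 0 y) = (T.PhiG ^ k) (vv T c) := by
    intro y
    obtain ⟨⟨k, c, hc⟩, -, -⟩ := main_all T hG y
    refine ⟨Matrix.vecMul c (AC G ^ k)⁻¹, k, ?_⟩
    rw [phi_pow_vv, Matrix.vecMul_vecMul, Matrix.nonsing_inv_mul _ (hpow k), Matrix.vecMul_one, hc]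
  choose pf hpf using ex
  have uq : ∀ (y : L) (c : V → ℂ) (k : ℕ), (T.PhiG ^ k) (T.b.p 0 y) = (T.PhiG ^ k) (vv T c) →
      pf y = c := fun y c k h => uniq _ _ _ (hpf y) ⟨k, h⟩
  let p : L →ₗ[ℂ] (V → ℂ) :=
    { toFun := pf
      map_add' := by
        intro y z
        obtain ⟨k1, hk1⟩ := hpf y
        obtain ⟨k2, hk2⟩ := hpf z
        have e1 := pow_lift T.PhiG hk1 k2
        have e2 := pow_lift T.PhiG hk2 k1
        rw [add_comm k1 k2] at e2
        refine uq _ _ (k2 + k1) ?_
        rw [map_add, map_add, map_add, map_add, e1, e2]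
      map_smul' := by
        intro c y
        obtain ⟨k1, hk1⟩ := hpf y
        refine uq _ _ k1 ?_
        rw [RingHom.id_apply, map_smul, map_smul, map_smul, map_smul, hk1] }
  have hp : ∀ y, p y = pf y := fun _ => rfl
  refine ⟨p, ?_, ?_, ?_, fun a => phi_v T a, ?_⟩
  · intro a
    rw [hp]
    refine uq _ _ 0 ?_
    rw [T.bv, vv_single]
  · intro j y hj
    rw [hp]
    refine uq _ _ 0 ?_
    rw [T.b.pp, if_neg (Ne.symm hj), map_zero, map_zero, map_zero]
  · intro y b
    have h3 : pf (T.PhiG y) = Matrix.vecMul (pf y) (AC G) := by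
      obtain ⟨k, hk⟩ := hpf y
      refine uq _ _ k ?_
      have e : ∀ z, (T.PhiG ^ k) (T.PhiG z) = T.PhiG ((T.PhiG ^ k) z) := fun z => by
        rw [← Module.End.mul_apply, ← Module.End.mul_apply, ← pow_succ, ← pow_succ']
      rw [(main_all T hG y).2.2, ← phi_vv, e, e, hk]
    rw [hp, hp, h3]
    rfl
  · intro y hy
    rw [hp] at hy
    obtain ⟨k, hk⟩ := hpf y
    rw [hy, map_zero, map_zero] at hk
    have h3 : T.b.p 0 y ∈ EPs T.PhiG := by
      refine ⟨k, 1, le_rfl, ?_⟩
      rw [add_comm, pow_add, Module.End.mul_apply, hk, map_zero]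
    have h4 : y ∈ EPs T.PhiG := by
      have h5 := Submodule.add_mem _ (main_all T hG y).2.1 h3
      rwa [sub_add_cancel] at h5
    exact h4

end Pool.Agent.Helper51.SI
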